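import Pool.Agent.N658.TP.Stm2

/-! # The logarithm is operator monotone (subtask TP/Log) -/

open scoped BigOperators ComplexConjugate Classical InnerProductSpace Matrix ComplexOrder
open scoped Matrix.Norms.L2Operator

noncomputable section

namespace Pool.Agent.N607.TP

open Pool.Agent.N658.TP

open scoped MatrixOrder

lemma qf_dot {n : Type} [Fintype n] (A : Matrix n n ℂ) (v : n → ℂ) :
    qf A v = (star v ⬝ᵥ (A *ᵥ v)).re := rfl

lemma qf_sub {n : Type} [Fintype n] (A B : Matrix n n ℂ) (v : n → ℂ) :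
    qf (A - B) v = qf A v - qf B v := by
  simp [qf_dot, Matrix.sub_mulVec, dotProduct_sub]

lemma qf_smul {n : Type} [Fintype n] (c : ℝ) (B : Matrix n n ℂ) (v : n → ℂ) :
    qf (c • B) v = c * qf B v := by
  simp [qf_dot, Matrix.smul_mulVec, dotProduct_smul]

lemma le_of_qf {n : Type} [Fintype n] (A B : Matrix n n ℂ) (hA : A.IsHermitian)
    (hB : B.IsHermitian) (h : ∀ v, qf A v ≤ qf B v) : A ≤ B := by
  rw [Matrix.le_iff]
  refine Matrix.PosSemidef.of_dotProduct_mulVec_nonneg (hB.sub hA) fun v => ?_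
  have h1 := h v
  have h2 := qf_sub B A v
  rw [RCLike.nonneg_iff (K := ℂ)]
  constructor
  · change 0 ≤ qf (B - A) v
    linarith
  · exact (hB.sub hA).im_star_dotProduct_mulVec_self v

lemma qf_le_of_le {n : Type} [Fintype n] (A B : Matrix n n ℂ) (h : A ≤ B) (v : n → ℂ) :
    qf A v ≤ qf B v := by
  rw [Matrix.le_iff] at h
  have h1 := h.dotProduct_mulVec_nonneg v
  rw [RCLike.nonneg_iff (K := ℂ)] at h1
  have h2 : 0 ≤ qf (B - A) v := h1.1
  rw [qf_sub] at h2
  linarith

theorem logMono : StmLog := by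
  intro n _ _ S K hS hK c hc h
  have hE : IsStrictlyPositive (NormedSpace.exp (-K)) := by
    have h1 : (0 : Matrix n n ℂ) ≤ NormedSpace.exp (-K) :=
      IsSelfAdjoint.exp_nonneg (a := -K) hK.neg
    exact (Matrix.isUnit_exp (-K)).isStrictlyPositive h1
  have hEc : IsStrictlyPositive (c • NormedSpace.exp (-K)) := hE.smul hc
  have hle : c • NormedSpace.exp (-K) ≤ S := by
    refine le_of_qf _ _ ?_ hS fun v => ?_
    · exact hEc.isSelfAdjoint
    · rw [qf_smul]; exact h v
  have hSp : IsStrictlyPositive S := hEc.of_le hle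
  refine ⟨CFC.log S, IsSelfAdjoint.log, CFC.exp_log S, fun φ hφ => ?_⟩
  have h2 := CFC.log_le_log hle
  have h3 := qf_le_of_le _ _ h2 φ
  rw [CFC.log_smul' _ hc, CFC.log_exp (-K) hK.neg] at h3
  have h4 : qf (algebraMap ℝ (Matrix n n ℂ) (Real.log c) + -K) φ = Real.log c - qf K φ := by
    rw [← sub_eq_add_neg, qf_sub, Algebra.algebraMap_eq_smul_one, qf_smul]
    have : qf (1 : Matrix n n ℂ) φ = 1 := by
      rw [← hφ]
      simp [qf, nsq, Pool.Agent.TH235.PP.ip, Pool.Agent.TH235.PP.normSq, ← Complex.normSq_eq_conj_mul_self, Complex.normSq_eq_norm_sq]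
      norm_cast
    rw [this, mul_one]
  rw [h4] at h3
  exact h3

end Pool.Agent.N607.TP
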